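import Mathlib
import Pool.Agent.Lib.helper23.HMP

set_option autoImplicit false

namespace Pool.Agent.Results.MP_a45b15_gt.Counter

open Set

def Wit {X : Type} [TopologicalSpace X] (r : Set (Set X) → X → X)
    (𝒩 : Set (Set X) → Set (Set X)) : Prop :=
  (∀ ℱ : Set (Set X), ℱ.Countable → (∀ F ∈ ℱ, IsClosed F) → Continuous (r ℱ) ∧
    (∀ x, r ℱ (r ℱ x) = r ℱ x) ∧ (𝒩 ℱ).Countable ∧
    (∀ a ∈ range (r ℱ), ∀ U, IsOpen U → a ∈ U → ∃ N ∈ 𝒩 ℱ, a ∈ N ∧ N ⊆ U) ∧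
    ∀ F ∈ ℱ, r ℱ '' F ⊆ F) ∧
  ∀ ℱ 𝒢 : Set (Set X), 𝒢.Countable → (∀ F ∈ 𝒢, IsClosed F) → ℱ ⊆ 𝒢 → 𝒩 ℱ ⊆ 𝒩 𝒢

abbrev lind {Z : Type} (z : Z) : TopologicalSpace Z where
  IsOpen U := z ∈ U → Uᶜ.Countable
  isOpen_univ := by simp
  isOpen_inter U V h h' hz := by
    rw [compl_inter]
    exact (h hz.1).union (h' hz.2)
  isOpen_sUnion S h := fun ⟨U, h1, h2⟩ =>
    (h U h1 h2).mono (compl_subset_compl.2 (subset_sUnion_of_mem h1))

theorem result : ∃ (X Y : Type) (_ : TopologicalSpace X) (_ : TopologicalSpace Y) (f : X → Y),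
    T35Space X ∧ T35Space Y ∧ Continuous f ∧ Function.Surjective f ∧
    (∃ r 𝒩, Wit (X := X) r 𝒩 ∧ ∀ ℱ : ℕ → Set (Set X), 𝒩 (⋃ n, ℱ n) = ⋃ n, 𝒩 (ℱ n)) ∧
    ¬ ∃ r 𝒩, Wit (X := Y) r 𝒩 := by
  classical
  obtain ⟨S, h1, h2⟩ := Pool.Agent.Lib.helper23.exists_dense Bool
  have := Pool.Agent.Lib.helper23.uncountable_cantor
  let e (a : ℕ → Bool) : (ℕ → Bool) → Bool := fun b => decide (a = b)
  let Y := ↥(insert (fun _ => false) (S ∪ range e))
  let z : Y := ⟨_, mem_insert _ _⟩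
  refine ⟨Y, Y, lind z, inferInstance, id, ?_, inferInstance, ?_, Function.surjective_id, ?_, ?_⟩
  · let := lind z
    have h (x : Y) (hx : x ≠ z) : IsClopen {x} :=
      ⟨⟨fun _ => by simp⟩, fun h => (hx (Eq.symm h)).elim⟩
    have : T0Space Y := ⟨fun x y hxy => by
      by_contra h3
      by_cases h4 : x = z
      · exact h3 ((hxy.mem_open_iff (h y fun h5 => h3 (h4.trans h5.symm)).2).2 rfl)
      · exact h3 ((hxy.mem_open_iff (h x h4).2).1 rfl).symm⟩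
    have : CompletelyRegularSpace Y := .of_isTopologicalBasis_clopens
      (TopologicalSpace.isTopologicalBasis_of_isOpen_of_nhds (fun _ h => h.2) fun x U hx hU => by
        by_cases h4 : x = z
        · exact ⟨U, ⟨⟨fun h => (h (h4 ▸ hx)).elim⟩, hU⟩, hx, subset_rfl⟩
        · exact ⟨{x}, h x h4, rfl, singleton_subset_iff.2 hx⟩)
    exact {}
  · refine @Continuous.mk _ _ (lind z) _ _ fun U hU hz => ?_
    obtain ⟨V, hV, rfl⟩ := isOpen_induced_iff.1 hU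
    have h3 := hV.mem_nhds hz
    rw [nhds_pi] at h3
    obtain ⟨J, h3, t, h4, h5⟩ := Filter.mem_pi.1 h3
    refine ((h1.union (h3.countable.image e)).preimage Subtype.val_injective).mono ?_
    rintro ⟨_, rfl | h | ⟨a, rfl⟩⟩ hy
    exacts [(hy hz).elim, Or.inl h, Or.inr ⟨a, by_contra fun h => hy (h5 fun i hi => by
      simpa [e, show a ≠ i from fun h' => h (h' ▸ hi)] using mem_of_mem_nhds (h4 i)), rfl⟩]
  · let := lind z
    let A (ℱ : Set (Set Y)) : Set Y := insert z (⋃₀ {F ∈ ℱ | F.Countable})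
    refine ⟨fun ℱ x => if x ∈ A ℱ then x else z, fun ℱ => (fun x => {x}) '' A ℱ,
      ⟨fun ℱ h3 h4 => ?_, fun ℱ 𝒢 _ _ h => image_mono (insert_subset_insert
        (sUnion_mono fun _ h' => ⟨h h'.1, h'.2⟩))⟩, fun ℱ => ?_⟩
    · have h5 : (A ℱ).Countable := ((h3.mono (sep_subset _ _)).sUnion fun _ h => h.2).insert z
      have h6 : z ∈ A ℱ := mem_insert _ _
      refine ⟨⟨fun U _ hz => h5.mono fun x hx => by_contra fun h => hx ?_⟩, fun x => ?_,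
        h5.image _, ?_, ?_⟩
      · simpa [h, h6] using hz
      · by_cases h : x ∈ A ℱ <;> simp [h, h6]
      · rintro _ ⟨x, rfl⟩ U - hU
        exact ⟨_, ⟨_, by by_cases h : x ∈ A ℱ <;> simp [h, h6], rfl⟩, rfl,
          singleton_subset_iff.2 hU⟩
      · rintro F hF _ ⟨x, hx, rfl⟩
        by_cases h : x ∈ A ℱ
        · simpa [h]
        · simp only [h, if_false]
          exact by_contra fun h' => h (Or.inr ⟨F, ⟨hF, by simpa using (h4 F hF).1 h'⟩, hx⟩)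
    · refine image_iUnion.symm ▸ congrArg _ (Set.ext fun x => ⟨?_, fun h => ?_⟩)
      · rintro (h | ⟨F, ⟨h, h'⟩, h''⟩)
        · exact mem_iUnion.2 ⟨0, Or.inl h⟩
        · exact mem_iUnion.2 ((mem_iUnion.1 h).imp fun n h => Or.inr ⟨F, ⟨h, h'⟩, h''⟩)
      · obtain ⟨n, h | ⟨F, ⟨h, h'⟩, h''⟩⟩ := mem_iUnion.1 h
        exacts [Or.inl h, Or.inr ⟨F, ⟨mem_iUnion.2 ⟨n, h⟩, h'⟩, h''⟩]
  rintro ⟨r, 𝒩, h3, -⟩
  obtain ⟨h4, -, h5, h6, h7⟩ := h3 ((fun x => {x}) '' (Subtype.val ⁻¹' S))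
    ((h1.preimage Subtype.val_injective).image _) (by rintro _ ⟨x, -, rfl⟩; exact isClosed_singleton)
  have h8 : Dense (Subtype.val ⁻¹' S : Set Y) := Subtype.dense_iff.2 fun x _ =>
    closure_mono (fun y h => by exact ⟨⟨y, Or.inr (Or.inl h)⟩, h, rfl⟩) (h2 x)
  have h9 := Continuous.ext_on h8 h4 continuous_id fun x hx => h7 _ ⟨x, hx, rfl⟩ ⟨x, rfl, rfl⟩
  choose N k1 k2 k3 using fun a => h6 ⟨e a, Or.inr (Or.inr ⟨a, rfl⟩)⟩ ⟨_, congrFun h9 _⟩
    ((fun y : Y => y.1 a) ⁻¹' {true})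
    ((isOpen_discrete _).preimage ((continuous_apply a).comp continuous_subtype_val)) (by simp [e])
  exact not_countable_univ (countable_of_injective_of_countable_image (f := N)
    (fun a _ b _ h => of_decide_eq_true (k3 b (h ▸ k2 a))) (h5.mono (image_subset_iff.2 fun a _ => k1 a)))

end Pool.Agent.Results.MP_a45b15_gt.Counter
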